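import Pool.Agent.helper56.P2.SpecW

set_option autoImplicit false

open scoped ContDiff Topology ComplexConjugate ENNReal
open MeasureTheory Filter Set Metric MvPolynomial Pool.Agent.helper37.QA

namespace Pool.Agent.P2W

open Pool.Agent.P2

theorem WQA_comp {d : ℕ} (f : Endo 2 d) (n N : ℕ) (hnN : n ≤ N) (Z : E3) :
    It f (N - n) (It f n Z) = It f N Z := by
  unfold It
  rw [← pmap_iter_add, Nat.sub_add_cancel hnN]

theorem WQA_B {d : ℕ} (f : Endo 2 d) (n N : ℕ) (hnN : n ≤ N) (ι : Fin 2) (c : ℂ) (κ : ℝ) (γ : ℂ → ℂ) (ξ0 : ℂ) (ρ : ℝ)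
    (q : ℂ × ℂ) : un f (N - n) (sF f n ι c κ γ ξ0 ρ q) =
      uu (gP f N ι c κ γ) (gQ f N ι c κ γ) ((d : ℝ) ^ (N - n)) (Sc ξ0 ρ κ q) := by
  have h := WQA_comp f n N hnN (gp ι c κ γ (Sc ξ0 ρ κ q))
  unfold un sF uu gP gQ pq
  rw [h]

theorem WQA_MAsymm (A B : ℂ × ℂ → ℝ) (p : ℂ × ℂ) : MA A B p = MA B A p := by
  unfold MA
  ring

theorem WQA_Sc (ξ0 : ℂ) (ρ κ : ℝ) (p : ℂ × ℂ) :
    HasFDerivAt (Sc ξ0 ρ κ) (((ρ : ℂ) • ContinuousLinearMap.fst ℂ ℂ ℂ).prod (((κ : ℂ) * (ρ : ℂ)) • ContinuousLinearMap.snd ℂ ℂ ℂ)) p := by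
  have h1 : HasFDerivAt (fun q : ℂ × ℂ => ξ0 + (ρ : ℂ) * q.1) ((ρ : ℂ) • ContinuousLinearMap.fst ℂ ℂ ℂ) p := by
    have := (hasFDerivAt_fst (𝕜 := ℂ) (p := p)).const_mul (ρ : ℂ)
    exact this.const_add ξ0
  have h2 : HasFDerivAt (fun q : ℂ × ℂ => (κ : ℂ) * ((ρ : ℂ) * q.2)) (((κ : ℂ) * (ρ : ℂ)) • ContinuousLinearMap.snd ℂ ℂ ℂ) p := by
    have h3 := ((hasFDerivAt_snd (𝕜 := ℂ) (p := p)).const_mul (ρ : ℂ)).const_mul (κ : ℂ)
    have h4 : (κ : ℂ) • ((ρ : ℂ) • ContinuousLinearMap.snd ℂ ℂ ℂ) = ((κ : ℂ) * (ρ : ℂ)) • ContinuousLinearMap.snd ℂ ℂ ℂ := by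
      rw [smul_smul]
    rw [← h4]
    exact h3
  exact h1.prodMk h2

theorem WQA_Scd (ξ0 : ℂ) (ρ κ : ℝ) (p : ℂ × ℂ) :
    Complex.normSq ((fderiv ℂ (Sc ξ0 ρ κ) p (1, 0)).1 * (fderiv ℂ (Sc ξ0 ρ κ) p (0, 1)).2 -
      (fderiv ℂ (Sc ξ0 ρ κ) p (0, 1)).1 * (fderiv ℂ (Sc ξ0 ρ κ) p (1, 0)).2) = ρ ^ 2 * (κ * ρ) ^ 2 := by
  rw [(WQA_Sc ξ0 ρ κ p).fderiv]
  simp [Complex.normSq_mul, Complex.normSq_ofReal]
  ring

theorem WQA_cd {P Q : ℂ × ℂ → ℂ} {q : ℂ × ℂ} (D : ℝ) (hP : AnalyticAt ℂ P q) (hQ : AnalyticAt ℂ Q q)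
    (h : 0 < Complex.normSq (P q) + Complex.normSq (Q q)) : ContDiffAt ℝ 2 (uu P Q D) q := by
  have e1 : ∀ {R : ℂ × ℂ → ℂ}, AnalyticAt ℂ R q → ContDiffAt ℝ 2 (fun x => Complex.normSq (R x)) q := by
    intro R hR
    have h1 : ContDiffAt ℝ 2 R q := (hR.contDiffAt (n := 2)).restrict_scalars ℝ
    have h2 : ContDiffAt ℝ 2 (fun x => (R x).re) q := Complex.reCLM.contDiff.contDiffAt.comp q h1
    have h3 : ContDiffAt ℝ 2 (fun x => (R x).im) q := Complex.imCLM.contDiff.contDiffAt.comp q h1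
    have h4 := (h2.mul h2).add (h3.mul h3)
    exact h4
  have h5 : ContDiffAt ℝ 2 (fun x => Real.log (Complex.normSq (P x) + Complex.normSq (Q x))) q :=
    ((e1 hP).add (e1 hQ)).log h.ne'
  exact (contDiffAt_const.mul h5).div_const D

/-- the density of `QA` -/
noncomputable def WQA_F {d : ℕ} (f : Endo 2 d) (n N : ℕ) (ι : Fin 2) (c : ℂ) (κ : ℝ) (γ : ℂ → ℂ) (q : ℂ × ℂ) : ℝ :=
  lev (fun p => (1 / 2) * Real.log (nq (It f n (gp ι c κ γ p)))) q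
    (ev (gP f N ι c κ γ) (gQ f N ι c κ γ) q) * om (gP f N ι c κ γ) (gQ f N ι c κ γ) q / (2 * (d : ℝ) ^ N)

theorem WQA_nq0 {k : ℕ} (v : Fin k → ℂ) : 0 ≤ nq v :=
  Finset.sum_nonneg fun _ _ => Complex.normSq_nonneg _

theorem WQA_ne {Z : E3} (h : 0 < pq Z) : Z ≠ 0 := by
  rintro rfl
  simp [pq] at h

theorem WQA_nqpos {Z : E3} (h : Z ≠ 0) : 0 < nq Z := by
  rcases (WQA_nq0 Z).lt_or_eq with h1 | h1
  · exact h1
  · exfalso
    apply h
    funext i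
    have h2 := (Finset.sum_eq_zero_iff_of_nonneg (fun i _ => Complex.normSq_nonneg (Z i))).1 h1.symm i (Finset.mem_univ i)
    exact Complex.normSq_eq_zero.1 h2

theorem WQA_open (τ : ℝ) : IsOpen (P2U.TB 1 τ) := by
  have h1 : IsOpen {p : ℂ × ℂ | ‖p.1‖ < 1} := isOpen_lt (by fun_prop) continuous_const
  have h2 : IsOpen {p : ℂ × ℂ | ‖p.2‖ < τ} := isOpen_lt (by fun_prop) continuous_const
  exact h1.inter h2

theorem WQA_nqc {X : Type} [TopologicalSpace X] {k : ℕ} {g : X → Fin k → ℂ} {S : Set X} (hg : ContinuousOn g S) :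
    ContinuousOn (fun x => nq (g x)) S := by
  unfold nq
  refine continuousOn_finsetSum _ fun i _ => ?_
  exact Complex.continuous_normSq.comp_continuousOn ((continuous_apply i).comp_continuousOn hg)

theorem WQA_crsc {X : Type} [TopologicalSpace X] {g h : X → E3} {S : Set X} (hg : ContinuousOn g S) (hh : ContinuousOn h S) :
    ContinuousOn (fun x => crs (g x) (h x)) S := by
  have hgi : ∀ i, ContinuousOn (fun x => g x i) S := fun i => (continuous_apply i).comp_continuousOn hg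
  have hhi : ∀ i, ContinuousOn (fun x => h x i) S := fun i => (continuous_apply i).comp_continuousOn hh
  refine continuousOn_pi.2 fun i => ?_
  fin_cases i
  · exact ((hgi 1).mul (hhi 2)).sub ((hgi 2).mul (hhi 1))
  · exact ((hgi 2).mul (hhi 0)).sub ((hgi 0).mul (hhi 2))
  · exact ((hgi 0).mul (hhi 1)).sub ((hgi 1).mul (hhi 0))

theorem WQA (hBMP : P2B.BMP_stmt) (hMAU : MAU_stmt) (hWAF : WAF_stmt) (hWHO : WHO_stmt) (hWCR : WCR_stmt) : WQA_stmt := by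
  intro d f U hd τ κ C0 α hτ hκ hκ1 hWC ι c γ n N ξ0 ρ h ε3 hTb hnN hξ0 hρ hρ1 hκρ hh hh1 hQA
  have hd0 : (0 : ℝ) < d := by exact_mod_cast (by omega : 0 < d)
  set G : ℂ × ℂ → E3 := fun p => It f n (gp ι c κ γ p) with hG
  set P : ℂ × ℂ → ℂ := gP f N ι c κ γ with hP
  set Q : ℂ × ℂ → ℂ := gQ f N ι c κ γ with hQ
  set A : ℂ × ℂ → ℝ := fun p => (1 / 2) * Real.log (nq (It f n (gp ι c κ γ p))) with hA
  set F : ℂ × ℂ → ℝ := WQA_F f n N ι c κ γ with hF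
  have hGan : ∀ p : ℂ × ℂ, ‖p.1‖ < 1 → AnalyticAt ℂ G p := fun p hp => (hWHO d f ι c κ γ n hTb.hd).1 p hp
  have hGNan : ∀ p : ℂ × ℂ, ‖p.1‖ < 1 → AnalyticAt ℂ (fun p => It f N (gp ι c κ γ p)) p :=
    fun p hp => (hWHO d f ι c κ γ N hTb.hd).1 p hp
  have hPan : ∀ p : ℂ × ℂ, ‖p.1‖ < 1 → AnalyticAt ℂ P p := fun p hp =>
    ((ContinuousLinearMap.proj (R := ℂ) (φ := fun _ : Fin 3 => ℂ) 0).analyticAt _).comp (hGNan p hp)
  have hQan : ∀ p : ℂ × ℂ, ‖p.1‖ < 1 → AnalyticAt ℂ Q p := fun p hp =>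
    ((ContinuousLinearMap.proj (R := ℂ) (φ := fun _ : Fin 3 => ℂ) 1).analyticAt _).comp (hGNan p hp)
  have hGne : ∀ p ∈ P2U.TB 1 τ, G p ≠ 0 := fun p hp => WQA_ne (hWC.nz ι c γ hTb n p hp).1
  have hPQ : ∀ p ∈ P2U.TB 1 τ, 0 < Complex.normSq (P p) + Complex.normSq (Q p) := fun p hp =>
    (hWC.nz ι c γ hTb N p hp).1
  have hPQne : ∀ p ∈ P2U.TB 1 τ, P p ≠ 0 ∨ Q p ≠ 0 := by
    intro p hp
    by_contra hcon
    rw [not_or, not_not, not_not] at hcon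
    have := hPQ p hp
    rw [hcon.1, hcon.2] at this
    simp at this
  have hAcd : ContDiffOn ℝ ∞ A (P2U.TB 1 τ) := fun p hp =>
    (hWAF G p (hGan p hp.1) (hGne p hp)).1.contDiffWithinAt
  have hAlev : ∀ p ∈ P2U.TB 1 τ, ∀ a : ℂ × ℂ, lev A p a = nq (crs (G p) (fderiv ℂ G p a)) / (2 * nq (G p) ^ 2) := fun p hp a =>
    (hWAF G p (hGan p hp.1) (hGne p hp)).2 a
  have hFeq : ∀ p, F p = lev A p (ev P Q p) * om P Q p / (2 * (d : ℝ) ^ N) := fun p => rfl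
  -- MA
  have hMA : ∀ p ∈ P2U.TB 1 τ, MA A (uu P Q ((d : ℝ) ^ (N - n))) p = (d : ℝ) ^ n * F p := by
    intro p hp
    have h1 := (hMAU (P2U.TB 1 τ) P Q A ((d : ℝ) ^ (N - n)) (WQA_open τ)
      (fun q hq => (hPan q hq.1).differentiableAt.differentiableWithinAt)
      (fun q hq => (hQan q hq.1).differentiableAt.differentiableWithinAt) hPQne hAcd (pow_pos hd0 _) p hp).1
    rw [h1, hFeq]
    have h2 : (d : ℝ) ^ N = (d : ℝ) ^ (N - n) * (d : ℝ) ^ n := by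
      rw [← pow_add, Nat.sub_add_cancel hnN]
    rw [h2]
    have h3 : (d : ℝ) ^ (N - n) ≠ 0 := (pow_pos hd0 _).ne'
    have h4 : (d : ℝ) ^ n ≠ 0 := (pow_pos hd0 _).ne'
    field_simp
  have hF0 : ∀ p ∈ P2U.TB 1 τ, 0 ≤ F p := by
    intro p hp
    rw [hFeq]
    refine div_nonneg (mul_nonneg ?_ ?_) (by positivity)
    · rw [hAlev p hp]
      exact div_nonneg (WQA_nq0 _) (by positivity)
    · unfold om
      positivity
  have hTBsub : P2U.TB 1 τ ⊆ {p : ℂ × ℂ | ‖p.1‖ < 1} := fun p hp => hp.1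
  have hGc : ContinuousOn G (P2U.TB 1 τ) := fun p hp => (hGan p hp.1).continuousAt.continuousWithinAt
  have hPc : ContinuousOn P (P2U.TB 1 τ) := fun p hp => (hPan p hp.1).continuousAt.continuousWithinAt
  have hQc : ContinuousOn Q (P2U.TB 1 τ) := fun p hp => (hQan p hp.1).continuousAt.continuousWithinAt
  have hG'c : ContinuousOn (fderiv ℂ G) (P2U.TB 1 τ) := fun p hp => (hGan p hp.1).fderiv.continuousAt.continuousWithinAt
  have hP'c : ContinuousOn (fderiv ℂ P) (P2U.TB 1 τ) := fun p hp => (hPan p hp.1).fderiv.continuousAt.continuousWithinAt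
  have hQ'c : ContinuousOn (fderiv ℂ Q) (P2U.TB 1 τ) := fun p hp => (hQan p hp.1).fderiv.continuousAt.continuousWithinAt
  have hw1 : ContinuousOn (w1 P Q) (P2U.TB 1 τ) :=
    (hQc.mul (hP'c.clm_apply continuousOn_const)).sub (hPc.mul (hQ'c.clm_apply continuousOn_const))
  have hw2 : ContinuousOn (w2 P Q) (P2U.TB 1 τ) :=
    (hQc.mul (hP'c.clm_apply continuousOn_const)).sub (hPc.mul (hQ'c.clm_apply continuousOn_const))
  have hev : ContinuousOn (ev P Q) (P2U.TB 1 τ) := hw2.neg.prodMk hw1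
  have hom : ContinuousOn (om P Q) (P2U.TB 1 τ) := by
    have h1 : ContinuousOn (fun p => Complex.normSq (P p) + Complex.normSq (Q p)) (P2U.TB 1 τ) :=
      (Complex.continuous_normSq.comp_continuousOn hPc).add (Complex.continuous_normSq.comp_continuousOn hQc)
    exact (h1.pow 2).inv₀ fun p hp => (pow_pos (hPQ p hp) 2).ne'
  have hFc : ContinuousOn F (P2U.TB 1 τ) := by
    have h1 : ContinuousOn (fun p => nq (crs (G p) (fderiv ℂ G p (ev P Q p))) / (2 * nq (G p) ^ 2) * om P Q p / (2 * (d : ℝ) ^ N)) (P2U.TB 1 τ) := by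
      refine ((ContinuousOn.div (WQA_nqc (WQA_crsc hGc (hG'c.clm_apply hev))) (continuousOn_const.mul ((WQA_nqc hGc).pow 2)) ?_).mul hom).div_const _
      intro p hp
      have h2 := WQA_nqpos (hGne p hp)
      exact (mul_pos two_pos (pow_pos h2 2)).ne'
    refine h1.congr fun p hp => ?_
    rw [hFeq, hAlev p hp]
  -- eta
  have heta0 : ∀ ξ : ℂ, 5 / 8 ≤ Complex.normSq ξ → eta ξ = 0 := fun ξ hξ => by
    unfold eta
    exact Real.smoothTransition.zero_of_nonpos (by linarith)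
  have heta1 : ∀ ξ : ℂ, Complex.normSq ξ ≤ 1 / 2 → eta ξ = 1 := fun ξ hξ => by
    unfold eta
    exact Real.smoothTransition.one_of_one_le (by linarith)
  have hetac : Continuous eta := by
    unfold eta
    exact Real.smoothTransition.continuous.comp (continuous_const.sub (continuous_const.mul Complex.continuous_normSq))
  -- the integrand
  set H : ℂ × ℂ → ℝ := fun q => eta q.1 ^ 2 * F q with hH
  set s : ℝ := κ * (ρ * h) with hs
  have hs0 : 0 < s := by positivity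
  have hsτ : s < τ := by
    have h1 : s = κ * ρ * h := by rw [hs]; ring
    rw [h1]
    nlinarith [mul_pos hκ hρ]
  have hμ : (volume : Measure ℂ).prod (volume.restrict (ball (0 : ℂ) s)) = (volume : Measure (ℂ × ℂ)).restrict (univ ×ˢ ball (0 : ℂ) s) := by
    rw [Measure.volume_eq_prod, ← Measure.prod_restrict, Measure.restrict_univ]
  have hint : IntegrableOn H (univ ×ˢ ball (0 : ℂ) s) := by
    have hK : IsCompact (closedBall (0 : ℂ) (9 / 10) ×ˢ closedBall (0 : ℂ) s) :=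
      (isCompact_closedBall _ _).prod (isCompact_closedBall _ _)
    have h1 : IntegrableOn H (closedBall (0 : ℂ) (9 / 10) ×ˢ closedBall (0 : ℂ) s) := by
      refine ContinuousOn.integrableOn_compact hK ?_
      have hsub : closedBall (0 : ℂ) (9 / 10) ×ˢ closedBall (0 : ℂ) s ⊆ P2U.TB 1 τ := by
        intro q hq
        have h1 : ‖q.1‖ ≤ 9 / 10 := by simpa using hq.1
        have h2 : ‖q.2‖ ≤ s := by simpa using hq.2
        exact ⟨by linarith, by linarith⟩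
      exact ((hetac.comp continuous_fst).pow 2).continuousOn.mul (hFc.mono hsub)
    have h2 : IntegrableOn H ((closedBall (0 : ℂ) (9 / 10))ᶜ ×ˢ ball (0 : ℂ) s) := by
      have h3 : IntegrableOn (fun _ : ℂ × ℂ => (0 : ℝ)) ((closedBall (0 : ℂ) (9 / 10))ᶜ ×ˢ ball (0 : ℂ) s) := integrableOn_zero
      refine h3.congr_fun ?_ (isClosed_closedBall.measurableSet.compl.prod measurableSet_ball)
      intro q hq
      have h1 : 9 / 10 < ‖q.1‖ := by
        have := hq.1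
        simpa using this
      have h4 : eta q.1 = 0 := by
        refine heta0 _ ?_
        rw [Complex.normSq_eq_norm_sq]
        nlinarith
      simp [hH, h4]
    refine (h1.union h2).mono_set ?_
    intro q hq
    by_cases hq1 : q.1 ∈ closedBall (0 : ℂ) (9 / 10)
    · exact Or.inl ⟨hq1, ball_subset_closedBall hq.2⟩
    · exact Or.inr ⟨hq1, hq.2⟩
  have hQAeq : QA f n (4 * (κ * ρ * h)) N ι c κ γ = ∫ q in (univ ×ˢ ball (0 : ℂ) s), H q := by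
    have h1 : Integrable H ((volume : Measure ℂ).prod (volume.restrict (ball (0 : ℂ) s))) := by
      rw [hμ]
      exact hint
    have h2 := integral_prod_symm H h1
    rw [hμ] at h2
    rw [h2]
    unfold QA
    have h3 : 4 * (κ * ρ * h) / 4 = s := by rw [hs]; ring
    rw [h3]
    rfl
  have hH0 : ∀ q ∈ (univ ×ˢ ball (0 : ℂ) s : Set (ℂ × ℂ)), 0 ≤ H q := by
    intro q hq
    have h2 : ‖q.2‖ < s := by simpa using hq.2
    by_cases hq1 : ‖q.1‖ < 1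
    · exact mul_nonneg (sq_nonneg _) (hF0 q ⟨hq1, by linarith⟩)
    · have h4 : eta q.1 = 0 := by
        refine heta0 _ ?_
        rw [Complex.normSq_eq_norm_sq]
        rw [not_lt] at hq1
        nlinarith
      simp [hH, h4]
  have hms : MeasurableSet (univ ×ˢ ball (0 : ℂ) s : Set (ℂ × ℂ)) := MeasurableSet.univ.prod measurableSet_ball
  have hofReal : ∫⁻ q in (univ ×ˢ ball (0 : ℂ) s), ENNReal.ofReal (H q) ≤ ENNReal.ofReal ε3 := by
    rw [← ofReal_integral_eq_lintegral_ofReal hint ((ae_restrict_iff' hms).2 (Eventually.of_forall hH0)), ← hQAeq]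
    exact ENNReal.ofReal_le_ofReal hQA
  -- the change of variables
  set T : Set (ℂ × ℂ) := {q | ‖q.1 - ξ0‖ < ρ ∧ ‖q.2‖ < s} with hT
  have hTm : MeasurableSet T := by
    have h1 : IsOpen {q : ℂ × ℂ | ‖q.1 - ξ0‖ < ρ} := isOpen_lt (by fun_prop) continuous_const
    have h2 : IsOpen {q : ℂ × ℂ | ‖q.2‖ < s} := isOpen_lt (by fun_prop) continuous_const
    exact (h1.inter h2).measurableSet
  have hTT : ∀ q ∈ T, q ∈ P2U.TB 1 τ ∧ eta q.1 = 1 := by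
    intro q hq
    have h1 : ‖q.1‖ < 1 / 8 := by
      calc ‖q.1‖ = ‖(q.1 - ξ0) + ξ0‖ := by rw [sub_add_cancel]
        _ ≤ ‖q.1 - ξ0‖ + ‖ξ0‖ := norm_add_le _ _
        _ < 1 / 8 := by linarith [hq.1]
    refine ⟨⟨by linarith, by linarith [hq.2]⟩, heta1 _ ?_⟩
    rw [Complex.normSq_eq_norm_sq]
    nlinarith [norm_nonneg q.1]
  set g : ℂ × ℂ → ℝ≥0∞ := T.indicator (fun q => ENNReal.ofReal (ρ ^ 2 * (κ * ρ) ^ 2 * ((d : ℝ) ^ n * F q))) with hg
  have hle : (2 : WithTop ℕ∞) ≤ ((⊤ : ℕ∞) : WithTop ℕ∞) := by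
    rw [show (2 : WithTop ℕ∞) = ((2 : ℕ∞) : WithTop ℕ∞) from rfl]
    exact WithTop.coe_le_coe.2 le_top
  have hpt : ∀ p ∈ P2U.TB 1 h, ENNReal.ofReal (P2B.ard (un f (N - n)) (sF f n ι c κ γ ξ0 ρ) p) = g (ξ0 + ρ * p.1, (κ * ρ : ℝ) * p.2) := by
    intro p hp
    have hSc : Sc ξ0 ρ κ p = (ξ0 + ρ * p.1, (κ * ρ : ℝ) * p.2) := by
      unfold Sc
      rw [Complex.ofReal_mul, mul_assoc]
    have hpT : Sc ξ0 ρ κ p ∈ T := by
      rw [hSc]
      have h1 : ‖p.1‖ < 1 := hp.1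
      have h2 : ‖p.2‖ < h := hp.2
      refine ⟨?_, ?_⟩
      · show ‖ξ0 + ρ * p.1 - ξ0‖ < ρ
        rw [add_sub_cancel_left, norm_mul, Complex.norm_real, Real.norm_of_nonneg hρ.le]
        nlinarith
      · show ‖((κ * ρ : ℝ) : ℂ) * p.2‖ < s
        rw [norm_mul, Complex.norm_real, Real.norm_of_nonneg (by positivity), hs, ← mul_assoc]
        exact mul_lt_mul_of_pos_left h2 (by positivity)
    rw [← hSc, hg, indicator_of_mem hpT]
    congr 1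
    have hpp := (hTT _ hpT).1
    rw [← hMA _ hpp, WQA_MAsymm A]
    have h3 := hBMP.1 univ (Sc ξ0 ρ κ) (uu P Q ((d : ℝ) ^ (N - n))) A p isOpen_univ
      (fun q _ => (WQA_Sc ξ0 ρ κ q).differentiableAt.differentiableWithinAt) (mem_univ _)
      (WQA_cd _ (hPan _ hpp.1) (hQan _ hpp.1) (hPQ _ hpp))
      ((hWAF G _ (hGan _ hpp.1) (hGne _ hpp)).1.of_le hle)
    rw [WQA_Scd] at h3
    rw [← h3]
    unfold P2B.ard
    have h4 : (fun q => un f (N - n) (sF f n ι c κ γ ξ0 ρ q)) = fun q => uu P Q ((d : ℝ) ^ (N - n)) (Sc ξ0 ρ κ q) := by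
      funext q
      exact WQA_B f n N hnN ι c κ γ ξ0 ρ q
    rw [h4]
    rfl
  have hTBm : MeasurableSet (P2U.TB 1 h) := (WQA_open h).measurableSet
  calc ∫⁻ p in P2U.TB 1 h, ENNReal.ofReal (P2B.ard (un f (N - n)) (sF f n ι c κ γ ξ0 ρ) p)
      = ∫⁻ p in P2U.TB 1 h, g (ξ0 + ρ * p.1, (κ * ρ : ℝ) * p.2) := setLIntegral_congr_fun hTBm hpt
    _ ≤ ∫⁻ p : ℂ × ℂ, g (ξ0 + ρ * p.1, (κ * ρ : ℝ) * p.2) := setLIntegral_le_lintegral _ _
    _ = ENNReal.ofReal ((ρ ^ 2 * (κ * ρ) ^ 2)⁻¹) * ∫⁻ q : ℂ × ℂ, g q := hWCR g ξ0 ρ (κ * ρ) hρ (by positivity)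
    _ = ENNReal.ofReal ((ρ ^ 2 * (κ * ρ) ^ 2)⁻¹) * ∫⁻ q in T, ENNReal.ofReal (ρ ^ 2 * (κ * ρ) ^ 2 * ((d : ℝ) ^ n * F q)) := by
        rw [hg, lintegral_indicator hTm]
    _ = ENNReal.ofReal ((ρ ^ 2 * (κ * ρ) ^ 2)⁻¹) * ∫⁻ q in T, ENNReal.ofReal (ρ ^ 2 * (κ * ρ) ^ 2 * (d : ℝ) ^ n) * ENNReal.ofReal (H q) := by
        congr 1
        refine setLIntegral_congr_fun hTm fun q hq => ?_
        have h1 := (hTT q hq).2
        have h2 : ρ ^ 2 * (κ * ρ) ^ 2 * ((d : ℝ) ^ n * F q) = (ρ ^ 2 * (κ * ρ) ^ 2 * (d : ℝ) ^ n) * H q := by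
          rw [hH]
          simp only [h1]
          ring
        show ENNReal.ofReal _ = _
        rw [h2, ENNReal.ofReal_mul (by positivity)]
    _ = ENNReal.ofReal ((ρ ^ 2 * (κ * ρ) ^ 2)⁻¹) * (ENNReal.ofReal (ρ ^ 2 * (κ * ρ) ^ 2 * (d : ℝ) ^ n) * ∫⁻ q in T, ENNReal.ofReal (H q)) := by
        rw [lintegral_const_mul' _ _ ENNReal.ofReal_ne_top]
    _ = ENNReal.ofReal ((d : ℝ) ^ n) * ∫⁻ q in T, ENNReal.ofReal (H q) := by
        rw [← mul_assoc, ← ENNReal.ofReal_mul (by positivity)]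
        congr 2
        have h1 : ρ ^ 2 * (κ * ρ) ^ 2 ≠ 0 := by positivity
        field_simp
    _ ≤ ENNReal.ofReal ((d : ℝ) ^ n) * ENNReal.ofReal ε3 := by
        gcongr
        refine le_trans (lintegral_mono_set ?_) hofReal
        intro q hq
        exact ⟨mem_univ _, by simpa using hq.2⟩
    _ = ENNReal.ofReal ((d : ℝ) ^ n * ε3) := by
        rw [ENNReal.ofReal_mul (by positivity)]

end Pool.Agent.P2W
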